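import Pool.Agent.W_a4f561_h8.Asm

/-!
MP_a4f561_co, LatticePages: every upward planar digraph with one source, one sink and no transitive edges
has a topological order whose twists have at most `2 log₂ n + 3` edges, and so `O(log² n)` pages suffice.
-/

set_option autoImplicit false

namespace Pool.Agent.Results.MP_a4f561_co.LatticePages

/-- Let `G` be a digraph on `n` vertices with an upward planar drawing as in the problem, in which `s` is
the only vertex without incoming edges and `t` the only vertex without outgoing edges (a planar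
st-graph), without transitive edges (no edge `u v` such that another directed path leads from `u` to
`v`).  There is an order `σ` of the vertices in which all edges go forward, every set of pairwise
crossing edges has at most `2 * log₂ n + 3` elements, and `(log₂ n + 1) * (2 * log₂ n + 3)` pages
suffice. -/
theorem result (n : ℕ) (G : Digraph (Fin n)) (f : Fin n → ℝ × ℝ) (hf : Function.Injective f)
    (γ : Fin n → Fin n → ℝ → ℝ × ℝ)
    (h1 : ∀ u v, G.Adj u v →
      ContinuousOn (γ u v) (Set.Icc (0:ℝ) 1) ∧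
      γ u v 0 = f u ∧ γ u v 1 = f v ∧
      StrictMonoOn (fun t => (γ u v t).2) (Set.Icc (0:ℝ) 1) ∧
      (∀ w, ∀ s ∈ Set.Ioo (0:ℝ) 1, γ u v s ≠ f w))
    (h2 : ∀ u v u' v', G.Adj u v → G.Adj u' v' → (u, v) ≠ (u', v') →
      ∀ s ∈ Set.Ioo (0:ℝ) 1, ∀ t ∈ Set.Icc (0:ℝ) 1, γ u v s ≠ γ u' v' t)
    (s t : Fin n) (hs : ∀ v, (∀ u, ¬ G.Adj u v) ↔ v = s) (ht : ∀ v, (∀ u, ¬ G.Adj v u) ↔ v = t)
    (htr : ∀ u v w, G.Adj u v → ¬ (Relation.TransGen G.Adj u w ∧ Relation.TransGen G.Adj w v)) :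
    ∃ σ : Fin n ≃ Fin n, ∃ p : Fin n → Fin n → Fin ((Nat.log 2 n + 1) * (2 * Nat.log 2 n + 3)),
      (∀ u v, G.Adj u v → σ u < σ v) ∧
      (∀ F : Finset (Fin n × Fin n), (∀ e ∈ F, G.Adj e.1 e.2) →
        (∀ e ∈ F, ∀ e' ∈ F, e ≠ e' →
          (σ e.1 < σ e'.1 ∧ σ e'.1 < σ e.2 ∧ σ e.2 < σ e'.2) ∨
          (σ e'.1 < σ e.1 ∧ σ e.1 < σ e'.2 ∧ σ e'.2 < σ e.2)) →
        F.card ≤ 2 * Nat.log 2 n + 3) ∧
      (∀ a b c d, G.Adj a b → G.Adj c d → p a b = p c d →
        ¬ (σ a < σ c ∧ σ c < σ b ∧ σ b < σ d)) :=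
  Pool.Agent.W_a4f561_h8.assembly n G f hf γ h1 h2 s t hs ht htr

end Pool.Agent.Results.MP_a4f561_co.LatticePages
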