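import Pool.Agent.W_a4f561_h73.A4Lvl
import Pool.Agent.W_a4f561_h73.A4Cnv

/-!
MP_a4f561_co, LevelSpan: short edges of a level drawing need at most `2 * d ^ 2` pages.
-/

set_option autoImplicit false

namespace Pool.Agent.Results.MP_a4f561_co.LevelSpan

/-- `G` is a digraph with an upward planar drawing (`f`, `γ`) as in the problem, in which every vertex
`v` lies on the horizontal line at height `η (ρ v)`, where `η : ℤ → ℝ` is strictly increasing; any
number of sources and sinks.  For every `d ≥ 1` there is an order of the vertices in which all edges of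
`G` go forward, and an assignment of `2 * d ^ 2` pages such that no two edges on the same page, both of
span `ρ v - ρ u` at most `d`, cross. -/
theorem result (n d : ℕ) (hd : 0 < d) (G : Digraph (Fin n)) (f : Fin n → ℝ × ℝ)
    (hf : Function.Injective f) (γ : Fin n → Fin n → ℝ → ℝ × ℝ)
    (h1 : ∀ u v, G.Adj u v →
      ContinuousOn (γ u v) (Set.Icc (0:ℝ) 1) ∧
      γ u v 0 = f u ∧ γ u v 1 = f v ∧
      StrictMonoOn (fun t => (γ u v t).2) (Set.Icc (0:ℝ) 1) ∧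
      (∀ w, ∀ s ∈ Set.Ioo (0:ℝ) 1, γ u v s ≠ f w))
    (h2 : ∀ u v u' v', G.Adj u v → G.Adj u' v' → (u, v) ≠ (u', v') →
      ∀ s ∈ Set.Ioo (0:ℝ) 1, ∀ t ∈ Set.Icc (0:ℝ) 1, γ u v s ≠ γ u' v' t)
    (ρ : Fin n → ℤ) (η : ℤ → ℝ) (hη : StrictMono η) (hl : ∀ v, (f v).2 = η (ρ v)) :
    ∃ σ : Fin n ≃ Fin n, ∃ p : Fin n → Fin n → Fin (2 * d ^ 2),
      (∀ u v, G.Adj u v → σ u < σ v) ∧
      (∀ a b c e, G.Adj a b → G.Adj c e → ρ b - ρ a ≤ d → ρ e - ρ c ≤ d → p a b = p c e →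
        ¬ (σ a < σ c ∧ σ c < σ b ∧ σ b < σ e)) := by
  obtain ⟨D, hD⟩ := W_a4f561_h73.exists_drw_y f hf γ h1 h2
  have H : W_a4f561_h73.Lev D ρ η := ⟨hη, fun v => by rw [hD, hl]⟩
  have hρ : ∀ u v, G.Adj u v → ρ u < ρ v := fun u v huv => by
    have h3 := D.up u v huv
    rw [H.lev, H.lev] at h3
    exact hη.lt_iff_lt.1 h3
  obtain ⟨σ, p, k1, k2⟩ := W_a4f561_h73.assembly (H.two hρ) hρ hd
  exact ⟨σ, p, k1, fun a b c e hab hce s1 s2 => k2 a b c e hab hce (by linarith) (by linarith)⟩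

end Pool.Agent.Results.MP_a4f561_co.LevelSpan
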