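import Pool.Agent.W_a4f561_h1.PhaseAll

/-!
MP_a4f561_co, PolylogPages: every upward planar digraph with `n ≥ 2` vertices has an upward book embedding with at
most `C (log n) ^ 11` pages, for an absolute constant `C`.
-/

set_option autoImplicit false

namespace Pool.Agent.Results.MP_a4f561_co.PolylogPages

/-- There is a constant `C` such that every digraph `G` on `n ≥ 2` vertices with an upward planar drawing as in the
problem has an order `σ` of the vertices in which all edges go forward, and an assignment `p` of the edges to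
`k ≤ C (log n) ^ 11` pages such that no two edges on one page cross. -/
theorem result : ∃ C : ℝ, ∀ n : ℕ, 2 ≤ n → ∀ (G : Digraph (Fin n)) (f : Fin n → ℝ × ℝ), Function.Injective f →
    ∀ (γ : Fin n → Fin n → ℝ → ℝ × ℝ),
    (∀ u v, G.Adj u v →
      ContinuousOn (γ u v) (Set.Icc (0:ℝ) 1) ∧
      γ u v 0 = f u ∧ γ u v 1 = f v ∧
      StrictMonoOn (fun t => (γ u v t).2) (Set.Icc (0:ℝ) 1) ∧
      (∀ w, ∀ s ∈ Set.Ioo (0:ℝ) 1, γ u v s ≠ f w)) →
    (∀ u v u' v', G.Adj u v → G.Adj u' v' → (u, v) ≠ (u', v') →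
      ∀ s ∈ Set.Ioo (0:ℝ) 1, ∀ t ∈ Set.Icc (0:ℝ) 1, γ u v s ≠ γ u' v' t) →
    ∃ (σ : Fin n ≃ Fin n) (k : ℕ) (p : Fin n → Fin n → Fin k),
      (k:ℝ) ≤ C * Real.log n ^ 11 ∧
      (∀ u v, G.Adj u v → σ u < σ v) ∧
      (∀ a b c d, G.Adj a b → G.Adj c d → p a b = p c d →
        ¬ (σ a < σ c ∧ σ c < σ b ∧ σ b < σ d)) :=
  Pool.Agent.W_a4f561_P8.final_of Pool.Agent.W_a4f561_h1.bars_cb

end Pool.Agent.Results.MP_a4f561_co.PolylogPages
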