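import Pool.Agent.W_a4f561_h34.AsmT

/-!
MP_a4f561_co, Subcubic: every upward planar digraph in which every vertex has at most two incoming edges,
at most two outgoing edges and at most three edges altogether has a 2-page upward book embedding.
-/

set_option autoImplicit false

namespace Pool.Agent.Results.MP_a4f561_co.Subcubic

/-- Let `G` be a digraph on `n` vertices with an upward planar drawing as in the problem (any number of
sources and sinks), in which every vertex has at most two incoming edges, at most two outgoing edges,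
and at most three incoming and outgoing edges together. Then `G` has a 2-page upward book embedding. -/
theorem result (n : ℕ) (G : Digraph (Fin n)) (f : Fin n → ℝ × ℝ) (hf : Function.Injective f)
    (γ : Fin n → Fin n → ℝ → ℝ × ℝ)
    (h1 : ∀ u v, G.Adj u v →
      ContinuousOn (γ u v) (Set.Icc (0:ℝ) 1) ∧
      γ u v 0 = f u ∧ γ u v 1 = f v ∧
      StrictMonoOn (fun t => (γ u v t).2) (Set.Icc (0:ℝ) 1) ∧
      (∀ w, ∀ s ∈ Set.Ioo (0:ℝ) 1, γ u v s ≠ f w))
    (h2 : ∀ u v u' v', G.Adj u v → G.Adj u' v' → (u, v) ≠ (u', v') →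
      ∀ s ∈ Set.Ioo (0:ℝ) 1, ∀ t ∈ Set.Icc (0:ℝ) 1, γ u v s ≠ γ u' v' t)
    (hi : ∀ v, {u | G.Adj u v}.ncard ≤ 2) (ho : ∀ v, {w | G.Adj v w}.ncard ≤ 2)
    (hd : ∀ v, {u | G.Adj u v}.ncard + {w | G.Adj v w}.ncard ≤ 3) :
    ∃ σ : Fin n ≃ Fin n, ∃ p : Fin n → Fin n → Fin 2,
      (∀ u v, G.Adj u v → σ u < σ v) ∧
      (∀ a b c d, G.Adj a b → G.Adj c d → p a b = p c d →
        ¬ (σ a < σ c ∧ σ c < σ b ∧ σ b < σ d)) :=
  Pool.Agent.W_a4f561_h34.assembly2 n G f hf γ h1 h2 hi ho hd

end Pool.Agent.Results.MP_a4f561_co.Subcubic
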